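import Pool.Agent.Helper31.MO.Local

/-! The measure of the bad pairs `(a, b)`. -/

set_option autoImplicit false

open MeasureTheory Metric Set Filter Topology Polynomial

namespace Pool.Agent.Helper31.MO

variable {ι : Type}

/-- the pairs for which the scales `η`, `ρ` do not work -/
def Bad (P Q : ι → ℂ[X]) (V : Finset ℂ) (η ρ : ℝ) : Set (ℂ × ℂ) :=
  {p | ‖p.1‖ < 1 ∧ ‖p.2‖ < 1 ∧ ((∃ i z, ‖z - p.1‖ < η ∧ (Q i).eval z ≠ 0 ∧
    ‖(P i).eval z / (Q i).eval z - p.2‖ < ρ) ∨ ∃ v ∈ V, ‖v - p.2‖ < ρ)}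

theorem meas_Bad (P Q : ι → ℂ[X]) (V : Finset ℂ) (η ρ : ℝ) : MeasurableSet (Bad P Q V η ρ) := by
  have o1 : IsOpen {p : ℂ × ℂ | ‖p.1‖ < 1} := isOpen_lt (by fun_prop) continuous_const
  have o2 : IsOpen {p : ℂ × ℂ | ‖p.2‖ < 1} := isOpen_lt (by fun_prop) continuous_const
  have o3 : ∀ (z : ℂ), IsOpen {p : ℂ × ℂ | ‖z - p.1‖ < η} := fun z =>
    isOpen_lt (by fun_prop) continuous_const
  have o4 : ∀ (z : ℂ), IsOpen {p : ℂ × ℂ | ‖z - p.2‖ < ρ} := fun z =>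
    isOpen_lt (by fun_prop) continuous_const
  have h1 : IsOpen {p : ℂ × ℂ | ∃ i z, ‖z - p.1‖ < η ∧ (Q i).eval z ≠ 0 ∧
      ‖(P i).eval z / (Q i).eval z - p.2‖ < ρ} := by
    have : {p : ℂ × ℂ | ∃ i z, ‖z - p.1‖ < η ∧ (Q i).eval z ≠ 0 ∧
        ‖(P i).eval z / (Q i).eval z - p.2‖ < ρ} = ⋃ (i : ι) (z : ℂ) (_ : (Q i).eval z ≠ 0),
        {p : ℂ × ℂ | ‖z - p.1‖ < η} ∩ {p : ℂ × ℂ | ‖(P i).eval z / (Q i).eval z - p.2‖ < ρ} := by
      ext p
      simp only [mem_ofPred_eq, mem_iUnion, mem_inter_iff]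
      constructor
      · rintro ⟨i, z, h1, h2, h3⟩
        exact ⟨i, z, h2, h1, h3⟩
      · rintro ⟨i, z, h2, h1, h3⟩
        exact ⟨i, z, h1, h2, h3⟩
    rw [this]
    exact isOpen_iUnion fun i => isOpen_iUnion fun z => isOpen_iUnion fun _ => (o3 z).inter (o4 _)
  have h2 : IsOpen {p : ℂ × ℂ | ∃ v ∈ V, ‖v - p.2‖ < ρ} := by
    have : {p : ℂ × ℂ | ∃ v ∈ V, ‖v - p.2‖ < ρ} = ⋃ v ∈ V, {p : ℂ × ℂ | ‖v - p.2‖ < ρ} := by
      ext p
      simp only [mem_ofPred_eq, mem_iUnion, exists_prop]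
    rw [this]
    exact isOpen_biUnion fun v _ => o4 v
  exact (o1.inter (o2.inter (h1.union h2))).measurableSet

theorem vol_piece {P Q : ℂ[X]} {a : ℂ} (ha : ‖a‖ < 1) {r κ ρ : ℝ} (hr : 0 < r) (hκ0 : 0 < κ)
    (hκ : κ ≤ 1) (hρ : 0 < ρ) (hL : a ∉ Large P Q r) :
    volume {b : ℂ | ‖b‖ < 1 ∧ ∃ z, ‖z - a‖ < κ * r / 4 ∧ Q.eval z ≠ 0 ∧
      ‖P.eval z / Q.eval z - b‖ < ρ} ≤ ENNReal.ofReal (Real.pi * (432 * κ + ρ) ^ 2) := by
  have hpi := Real.pi_pos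
  rcases le_or_gt ρ 1 with h1 | h1
  · rcases Set.eq_empty_or_nonempty {b : ℂ | ‖b‖ < 1 ∧ ∃ z, ‖z - a‖ < κ * r / 4 ∧ Q.eval z ≠ 0 ∧
      ‖P.eval z / Q.eval z - b‖ < ρ} with h0 | ⟨b₀, hb₀, z₀, hz₀, hQ₀, hf₀⟩
    · rw [h0, measure_empty]; exact zero_le
    · have hval : ∀ b z : ℂ, ‖b‖ < 1 → ‖P.eval z / Q.eval z - b‖ < ρ →
          ‖P.eval z / Q.eval z‖ < 2 := by
        intro b z hb hz
        have := norm_sub_norm_le (P.eval z / Q.eval z) b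
        linarith
      rw [← vol_ball (P.eval z₀ / Q.eval z₀) (by positivity)]
      apply measure_mono
      rintro b ⟨hb, z, hz, hQ, hf⟩
      have h2 := osc_map ha hr hκ hL (z := z) (z' := z₀) (by rwa [mem_ball, dist_eq_norm])
        (by rwa [mem_ball, dist_eq_norm]) hQ hQ₀ (hval b z hb hf) (hval b₀ z₀ hb₀ hf₀)
      rw [mem_ball]
      calc dist b (P.eval z₀ / Q.eval z₀)
          ≤ dist b (P.eval z / Q.eval z) + dist (P.eval z / Q.eval z) (P.eval z₀ / Q.eval z₀) :=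
            dist_triangle _ _ _
        _ < ρ + 432 * κ := by
            rw [dist_comm, dist_eq_norm, dist_eq_norm]
            exact add_lt_add_of_lt_of_le hf h2
        _ = 432 * κ + ρ := by ring
  · calc volume {b : ℂ | ‖b‖ < 1 ∧ ∃ z, ‖z - a‖ < κ * r / 4 ∧ Q.eval z ≠ 0 ∧
          ‖P.eval z / Q.eval z - b‖ < ρ} ≤ volume (ball (0 : ℂ) 1) := by
          apply measure_mono
          rintro b ⟨hb, -⟩
          rwa [mem_ball, dist_zero_right]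
      _ = ENNReal.ofReal (Real.pi * 1 ^ 2) := vol_ball 0 zero_le_one
      _ ≤ _ := by
          apply ENNReal.ofReal_le_ofReal
          gcongr
          nlinarith

/-- the fibre of the bad set over a good centre -/
theorem vol_fib [Fintype ι] {P Q : ι → ℂ[X]} {V : Finset ℂ} {a : ℂ} (ha : ‖a‖ < 1) {r κ ρ : ℝ}
    (hr : 0 < r) (hκ0 : 0 < κ) (hκ : κ ≤ 1) (hρ : 0 < ρ) (hL : ∀ i, a ∉ Large (P i) (Q i) r) :
    volume (Prod.mk a ⁻¹' Bad P Q V (κ * r / 4) ρ) ≤ ENNReal.ofReal (Real.pi *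
      (Fintype.card ι * (432 * κ + ρ) ^ 2 + V.card * ρ ^ 2)) := by
  have hpi := Real.pi_pos
  have hsub : Prod.mk a ⁻¹' Bad P Q V (κ * r / 4) ρ ⊆
      (⋃ i, {b : ℂ | ‖b‖ < 1 ∧ ∃ z, ‖z - a‖ < κ * r / 4 ∧ (Q i).eval z ≠ 0 ∧
        ‖(P i).eval z / (Q i).eval z - b‖ < ρ}) ∪ ⋃ v ∈ V, ball v ρ := by
    rintro b ⟨-, h2, ⟨i, z, h3, h4, h5⟩ | ⟨v, h3, h4⟩⟩
    · exact Or.inl (mem_iUnion.2 ⟨i, h2, z, h3, h4, h5⟩)
    · refine Or.inr (mem_iUnion₂.2 ⟨v, h3, ?_⟩)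
      rw [mem_ball, dist_comm, dist_eq_norm]; exact h4
  calc volume (Prod.mk a ⁻¹' Bad P Q V (κ * r / 4) ρ)
      ≤ (∑ _i : ι, ENNReal.ofReal (Real.pi * (432 * κ + ρ) ^ 2)) +
          ∑ _v ∈ V, ENNReal.ofReal (Real.pi * ρ ^ 2) := by
        refine (measure_mono hsub).trans ((measure_union_le _ _).trans (add_le_add ?_ ?_))
        · refine (measure_iUnion_fintype_le _ _).trans (Finset.sum_le_sum fun i _ => ?_)
          exact vol_piece ha hr hκ0 hκ hρ (hL i)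
        · refine (measure_biUnion_finset_le _ _).trans (Finset.sum_le_sum fun v _ => ?_)
          exact (vol_ball v hρ.le).le
    _ = ENNReal.ofReal (Real.pi * (Fintype.card ι * (432 * κ + ρ) ^ 2 + V.card * ρ ^ 2)) := by
        rw [Finset.sum_const, Finset.sum_const, nsmul_eq_mul, nsmul_eq_mul,
          ← ENNReal.ofReal_natCast, ← ENNReal.ofReal_natCast, ← ENNReal.ofReal_mul (by positivity),
          ← ENNReal.ofReal_mul (by positivity), ← ENNReal.ofReal_add (by positivity)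
          (by positivity), Finset.card_univ]
        congr 1; ring

/-- the choice of the scale `κ` -/
theorem exists_kappa {k m : ℕ} (hk : 1 ≤ k) {t r : ℝ} (ht : 0 < t) (hr : 0 < r) :
    ∃ κ : ℝ, 0 < κ ∧ κ ≤ 1 ∧
      min 1 ((k : ℝ) * (432 * κ + 16 * t / (κ * r)) ^ 2 + m * (16 * t / (κ * r)) ^ 2) ≤
        13824 * Real.sqrt (2 * k * (m + 2 * k)) * t / r := by
  have hk' : (1 : ℝ) ≤ k := by exact_mod_cast hk
  have hm' : (0 : ℝ) ≤ m := Nat.cast_nonneg m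
  set s : ℝ := Real.sqrt (2 * k * (m + 2 * k)) with hs
  have hs2 : s ^ 2 = 2 * k * (m + 2 * k) := Real.sq_sqrt (by positivity)
  have hs0 : 0 < s := Real.sqrt_pos.2 (by positivity)
  -- `κ₀² = s t / (54 k r)`
  set q : ℝ := s * t / (54 * k * r) with hq
  have hq0 : 0 < q := by positivity
  rcases le_or_gt q 1 with h1 | h1
  · refine ⟨Real.sqrt q, Real.sqrt_pos.2 hq0, Real.sqrt_le_one.2 h1, (min_le_right _ _).trans ?_⟩
    have hκ2 : Real.sqrt q ^ 2 = q := Real.sq_sqrt hq0.le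
    have hκ0 : 0 < Real.sqrt q := Real.sqrt_pos.2 hq0
    set κ := Real.sqrt q with hκ
    have e1 : (k : ℝ) * (432 * κ + 16 * t / (κ * r)) ^ 2 + m * (16 * t / (κ * r)) ^ 2 ≤
        2 * k * 432 ^ 2 * κ ^ 2 + (m + 2 * k) * (16 * t / (κ * r)) ^ 2 := by
      have h3 : (432 * κ + 16 * t / (κ * r)) ^ 2 ≤
          2 * (432 * κ) ^ 2 + 2 * (16 * t / (κ * r)) ^ 2 := by
        nlinarith [sq_nonneg (432 * κ - 16 * t / (κ * r))]
      nlinarith [mul_le_mul_of_nonneg_left h3 (by positivity : (0 : ℝ) ≤ k)]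
    have e2 : (16 * t / (κ * r)) ^ 2 = 256 * t ^ 2 / (q * r ^ 2) := by
      rw [div_pow, mul_pow, mul_pow, hκ2]; norm_num
    have e3 : 2 * k * 432 ^ 2 * κ ^ 2 = 6912 * s * t / r := by
      rw [hκ2, hq]; field_simp; norm_num
    have e4 : (m + 2 * k : ℝ) * (256 * t ^ 2 / (q * r ^ 2)) = 6912 * s * t / r := by
      have h5 : (m + 2 * k : ℝ) = s ^ 2 / (2 * k) := by rw [hs2]; field_simp
      rw [h5, hq]
      field_simp
      norm_num
    rw [e2] at e1 ⊢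
    rw [e3, e4] at e1
    refine e1.trans (le_of_eq ?_)
    ring
  · refine ⟨1, one_pos, le_rfl, (min_le_left _ _).trans ?_⟩
    have h2 : 54 * k * r < s * t := by
      rw [hq, lt_div_iff₀ (by positivity)] at h1
      linarith
    rw [le_div_iff₀ hr]
    nlinarith

end Pool.Agent.Helper31.MO
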