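import Mathlib
import Pool.Graph.R_seed8.H792R2.CE.B1
import Pool.Graph.R_seed8.H792R2.CE.C2
import Pool.Graph.R_seed8.Helper114.Rat

/-! Critical values of a rational map. -/

set_option autoImplicit false

open MeasureTheory Metric Set Filter Topology Polynomial
open scoped OnePoint

namespace Pool.Agent.Helper31.MO

open Pool.Agent.Helper114.Herman Pool.Agent.Helper114.Konig
open Pool.Agent.H792R2.CE (sph sph_coe sph_infty sph_coe_of_ne B1_continuous C4_inj rf wr)

theorem isRat {P Q : ℂ[X]} {f : OnePoint ℂ → OnePoint ℂ} (hc : IsCoprime P Q)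
    (hd : 1 ≤ max P.natDegree Q.natDegree) (hf : Continuous f)
    (he : ∀ z : ℂ, Q.eval z ≠ 0 → f (OnePoint.some z) = OnePoint.some (P.eval z / Q.eval z)) :
    IsRat f P Q := by
  refine ⟨hf, hc, ?_, he⟩
  rintro rfl
  have hu : IsUnit P := isCoprime_zero_right.1 hc
  have := natDegree_eq_zero_of_isUnit hu
  simp [this] at hd

theorem nb {P Q : ℂ[X]} (hc : IsCoprime P Q) (z : ℂ) : P.eval z ≠ 0 ∨ Q.eval z ≠ 0 := by
  by_contra hcon
  push Not at hcon
  obtain ⟨h1, h2⟩ := hcon
  obtain ⟨a, b, hab⟩ := hc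
  have := congrArg (Polynomial.eval z) hab
  simp [h1, h2] at this

theorem val {P Q : ℂ[X]} {f : OnePoint ℂ → OnePoint ℂ} (hc : IsCoprime P Q)
    (hd : 1 ≤ max P.natDegree Q.natDegree) (hf : Continuous f)
    (he : ∀ z : ℂ, Q.eval z ≠ 0 → f (OnePoint.some z) = OnePoint.some (P.eval z / Q.eval z))
    (z : ℂ) : f (z : OnePoint ℂ) = pr (P.eval z) (Q.eval z) := by
  have h := rat_formula (isRat hc hd hf he) rfl hd (u := z) (v := 1) (Or.inr one_ne_zero)
  rw [pr_one, hom_ne (le_max_left _ _) one_ne_zero, hom_ne (le_max_right _ _) one_ne_zero] at h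
  simpa using h

theorem inj_at {P Q : ℂ[X]} {f : OnePoint ℂ → OnePoint ℂ} (hc : IsCoprime P Q)
    (hd : 1 ≤ max P.natDegree Q.natDegree) (hf : Continuous f)
    (he : ∀ z : ℂ, Q.eval z ≠ 0 → f (OnePoint.some z) = OnePoint.some (P.eval z / Q.eval z))
    {c : ℂ} (hW : (wr P Q).eval c ≠ 0) : ∃ U ∈ 𝓝 (c : OnePoint ℂ), InjOn f U := by
  have hcoe : range ((↑) : ℂ → OnePoint ℂ) ∈ 𝓝 (c : OnePoint ℂ) :=
    (OnePoint.isOpenEmbedding_coe (X := ℂ)).isOpen_range.mem_nhds ⟨c, rfl⟩
  by_cases hQ : Q.eval c = 0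
  · have hP : P.eval c ≠ 0 := (nb hc c).resolve_right (not_not.2 hQ)
    have hW' : (wr Q P).eval c ≠ 0 := by
      have : wr Q P = -wr P Q := by unfold wr; ring
      rw [this, eval_neg]
      exact neg_ne_zero.2 hW
    obtain ⟨U, hU, hi⟩ := C4_inj (d := 0) hP hW'
    refine ⟨U ∩ range ((↑) : ℂ → OnePoint ℂ), inter_mem hU hcoe, ?_⟩
    rintro _ ⟨hx, x, rfl⟩ _ ⟨hy, y, rfl⟩ hxy
    apply hi hx hy
    rw [val hc hd hf he, val hc hd hf he] at hxy
    have h2 := congrArg sinv hxy
    rw [sinv_pr (nb hc x), sinv_pr (nb hc y)] at h2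
    rw [sph_coe, sph_coe]
    exact h2
  · obtain ⟨U, hU, hi⟩ := C4_inj (d := 0) hQ hW
    refine ⟨U ∩ range ((↑) : ℂ → OnePoint ℂ), inter_mem hU hcoe, ?_⟩
    rintro _ ⟨hx, x, rfl⟩ _ ⟨hy, y, rfl⟩ hxy
    apply hi hx hy
    rw [val hc hd hf he, val hc hd hf he] at hxy
    rw [sph_coe, sph_coe]
    exact hxy

theorem const_of {P Q : ℂ[X]} (hc : IsCoprime P Q) (h : derivative P * Q = P * derivative Q) :
    Q.natDegree = 0 := by
  have h1 : Q ∣ derivative Q := by
    have h2 : Q ∣ P * derivative Q := ⟨derivative P, by rw [← h]; ring⟩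
    exact hc.symm.dvd_of_dvd_mul_left h2
  by_contra h0
  have h3 : derivative Q ≠ 0 := by
    intro h4
    exact h0 (derivative_eq_zero.1 h4)
  have h5 := natDegree_le_of_dvd h1 h3
  have h6 := natDegree_derivative_lt h0
  omega

theorem wr_ne {P Q : ℂ[X]} (hc : IsCoprime P Q) (hd : 1 ≤ max P.natDegree Q.natDegree) :
    wr P Q ≠ 0 := by
  intro h
  have h1 : derivative P * Q = P * derivative Q := sub_eq_zero.1 h
  have h2 := const_of hc h1
  have h3 := const_of hc.symm (by rw [mul_comm, ← h1, mul_comm])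
  simp [h2, h3] at hd

theorem wr_deg {P Q : ℂ[X]} : (wr P Q).natDegree ≤ 2 * max P.natDegree Q.natDegree - 1 := by
  unfold wr
  have hP := natDegree_derivative_le P
  have hQ := natDegree_derivative_le Q
  have h1 : (derivative P * Q).natDegree ≤ 2 * max P.natDegree Q.natDegree - 1 := by
    by_cases h0 : P.natDegree = 0
    · have : derivative P = 0 := by
        rw [eq_C_of_natDegree_eq_zero h0, derivative_C]
      simp [this]
    · have := natDegree_mul_le (p := derivative P) (q := Q)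
      omega
  have h2 : (P * derivative Q).natDegree ≤ 2 * max P.natDegree Q.natDegree - 1 := by
    by_cases h0 : Q.natDegree = 0
    · have : derivative Q = 0 := by
        rw [eq_C_of_natDegree_eq_zero h0, derivative_C]
      simp [this]
    · have := natDegree_mul_le (p := P) (q := derivative Q)
      omega
  exact (natDegree_sub_le _ _).trans (max_le h1 h2)

/-- A rational map of degree `d ≥ 1` has at most `2 d` critical values (in fact `2 d - 2`). -/
theorem crit_values {P Q : ℂ[X]} {f : OnePoint ℂ → OnePoint ℂ} (hc : IsCoprime P Q)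
    (hd : 1 ≤ max P.natDegree Q.natDegree) (hf : Continuous f)
    (he : ∀ z : ℂ, Q.eval z ≠ 0 → f (OnePoint.some z) = OnePoint.some (P.eval z / Q.eval z)) :
    (f '' {c | ¬ ∃ U ∈ 𝓝 c, InjOn f U}).Finite ∧
      (f '' {c | ¬ ∃ U ∈ 𝓝 c, InjOn f U}).ncard ≤ 2 * max P.natDegree Q.natDegree := by
  classical
  have hne := wr_ne hc hd
  set R : Finset (OnePoint ℂ) := insert (∞ : OnePoint ℂ) ((wr P Q).roots.toFinset.map ⟨_, OnePoint.coe_injective⟩)
    with hR
  have hsub : {c | ¬ ∃ U ∈ 𝓝 c, InjOn f U} ⊆ (R : Set (OnePoint ℂ)) := by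
    intro c hcr
    induction c using OnePoint.rec with
    | infty => simp [hR]
    | coe c =>
      have : (wr P Q).eval c = 0 := by
        by_contra h
        exact hcr (inj_at hc hd hf he h)
      simp only [hR, Finset.coe_insert, Set.mem_insert_iff, Finset.mem_coe]
      right
      simp [hne, this]
  have hcard : R.card ≤ 2 * max P.natDegree Q.natDegree := by
    have h1 : R.card ≤ (wr P Q).roots.toFinset.card + 1 := by
      rw [hR]
      refine (Finset.card_insert_le _ _).trans ?_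
      rw [Finset.card_map]
    have h2 := Multiset.toFinset_card_le (wr P Q).roots
    have h3 := card_roots' (wr P Q)
    have h4 := wr_deg (P := P) (Q := Q)
    omega
  have hfin : (f '' {c | ¬ ∃ U ∈ 𝓝 c, InjOn f U}).Finite :=
    (R.finite_toSet.subset hsub).image f
  refine ⟨hfin, ?_⟩
  calc (f '' {c | ¬ ∃ U ∈ 𝓝 c, InjOn f U}).ncard ≤ {c | ¬ ∃ U ∈ 𝓝 c, InjOn f U}.ncard :=
        ncard_image_le (R.finite_toSet.subset hsub)
    _ ≤ (R : Set (OnePoint ℂ)).ncard := ncard_le_ncard hsub R.finite_toSet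
    _ = R.card := ncard_coe_finset R
    _ ≤ _ := hcard

end Pool.Agent.Helper31.MO
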