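import Pool.Agent.Helper31.MO.Geo

/-! Double counting: most discs of radius `r ~ 1 / √d` omit half of the values in the unit disc. -/

set_option autoImplicit false

open MeasureTheory Metric Set Filter Topology Polynomial

namespace Pool.Agent.Helper31.MO

/-- pairs `(a, w)` such that the value `w` is taken in `ball a r` -/
def Om (P Q : ℂ[X]) (r : ℝ) : Set (ℂ × ℂ) :=
  {p | ‖p.1‖ < 1 ∧ ‖p.2‖ < 1 ∧ ∃ z, ‖z - p.1‖ < r ∧ P.eval z = p.2 * Q.eval z}

theorem meas_Om (P Q : ℂ[X]) (r : ℝ) : MeasurableSet (Om P Q r) := by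
  set K : ℕ → Set (ℂ × ℂ × ℂ) := fun n => {q | ‖q.1 - q.2.1‖ ≤ r - 1 / ((n : ℝ) + 1) ∧ ‖q.2.1‖ ≤ 1 ∧
    ‖q.2.2‖ ≤ 1 ∧ P.eval q.1 = q.2.2 * Q.eval q.1} with hK
  have hcl : ∀ n, IsClosed (K n) := by
    intro n
    have c1 : IsClosed {q : ℂ × ℂ × ℂ | ‖q.1 - q.2.1‖ ≤ r - 1 / ((n : ℝ) + 1)} :=
      isClosed_le (by fun_prop) continuous_const
    have c2 : IsClosed {q : ℂ × ℂ × ℂ | ‖q.2.1‖ ≤ 1} := isClosed_le (by fun_prop) continuous_const
    have c3 : IsClosed {q : ℂ × ℂ × ℂ | ‖q.2.2‖ ≤ 1} := isClosed_le (by fun_prop) continuous_const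
    have c4 : IsClosed {q : ℂ × ℂ × ℂ | P.eval q.1 = q.2.2 * Q.eval q.1} :=
      isClosed_eq (P.continuous.comp continuous_fst)
        ((continuous_snd.comp continuous_snd).mul (Q.continuous.comp continuous_fst))
    exact c1.inter (c2.inter (c3.inter c4))
  have hb : ∀ n, Bornology.IsBounded (K n) := by
    intro n
    refine (isBounded_closedBall (x := (0 : ℂ × ℂ × ℂ)) (r := |r| + 2)).subset ?_
    rintro ⟨z, a, w⟩ ⟨h1, h2, h3, -⟩
    simp only at h1 h2 h3
    have h4 : (0 : ℝ) < 1 / ((n : ℝ) + 1) := by positivity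
    have h5 := le_abs_self r
    have h6 : ‖z‖ ≤ ‖z - a‖ + ‖a‖ := by simpa using norm_add_le (z - a) a
    have h7 := abs_nonneg r
    rw [mem_closedBall, dist_zero_right, Prod.norm_def, Prod.norm_def]
    refine max_le (by linarith) (max_le (by linarith) (by linarith))
  have hm : ∀ n, MeasurableSet (Prod.snd '' K n) := fun n =>
    ((Metric.isCompact_of_isClosed_isBounded (hcl n) (hb n)).image
      continuous_snd).isClosed.measurableSet
  have he : Om P Q r = (⋃ n, Prod.snd '' K n) ∩ {p | ‖p.1‖ < 1 ∧ ‖p.2‖ < 1} := by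
    ext ⟨a, w⟩
    constructor
    · rintro ⟨h1, h2, z, h3, h4⟩
      simp only at h1 h2 h3 h4
      refine ⟨?_, h1, h2⟩
      obtain ⟨n, hn⟩ := exists_nat_one_div_lt (sub_pos.2 h3)
      exact mem_iUnion.2 ⟨n, (z, a, w), ⟨by simp only; linarith, h1.le, h2.le, h4⟩, rfl⟩
    · rintro ⟨h0, h1, h2⟩
      obtain ⟨n, ⟨z, a', w'⟩, ⟨h3, h4, h5, h6⟩, h7⟩ := mem_iUnion.1 h0
      obtain ⟨rfl, rfl⟩ : a' = a ∧ w' = w := by simpa using h7
      refine ⟨h1, h2, z, ?_, h6⟩
      simp only at h3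
      have h8 : (0 : ℝ) < 1 / ((n : ℝ) + 1) := by positivity
      simp only
      linarith
  rw [he]
  refine (MeasurableSet.iUnion hm).inter ?_
  have o1 : IsOpen {p : ℂ × ℂ | ‖p.1‖ < 1} := isOpen_lt (by fun_prop) continuous_const
  have o2 : IsOpen {p : ℂ × ℂ | ‖p.2‖ < 1} := isOpen_lt (by fun_prop) continuous_const
  exact (o1.inter o2).measurableSet

theorem sub_ne {P Q : ℂ[X]} (hc : IsCoprime P Q) (hd : 1 ≤ max P.natDegree Q.natDegree) (w : ℂ) :
    P - C w * Q ≠ 0 := by
  intro h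
  have h1 : P = C w * Q := sub_eq_zero.1 h
  have hu : IsUnit Q := hc.symm.isUnit_of_dvd ⟨C w, by rw [h1]; ring⟩
  have hQ := natDegree_eq_zero_of_isUnit hu
  have hP : P.natDegree ≤ Q.natDegree := by rw [h1]; exact natDegree_C_mul_le _ _
  omega

theorem vol_fibre {P Q : ℂ[X]} (hc : IsCoprime P Q) (hd : 1 ≤ max P.natDegree Q.natDegree) (w : ℂ)
    {r : ℝ} (hr : 0 ≤ r) : volume {a : ℂ | ∃ z, ‖z - a‖ < r ∧ P.eval z = w * Q.eval z} ≤
      ENNReal.ofReal ((max P.natDegree Q.natDegree : ℕ) * (Real.pi * r ^ 2)) := by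
  have hne := sub_ne hc hd w
  have hsub : {a : ℂ | ∃ z, ‖z - a‖ < r ∧ P.eval z = w * Q.eval z} ⊆
      ⋃ z ∈ (P - C w * Q).roots.toFinset, ball z r := by
    rintro a ⟨z, h1, h2⟩
    refine mem_iUnion₂.2 ⟨z, ?_, ?_⟩
    · rw [Multiset.mem_toFinset, mem_roots hne, IsRoot.def]
      simp [h2]
    · rw [mem_ball, dist_comm, dist_eq_norm]; exact h1
  have hcard : (P - C w * Q).roots.toFinset.card ≤ max P.natDegree Q.natDegree := by
    refine (Multiset.toFinset_card_le _).trans ((card_roots' _).trans ?_)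
    refine (natDegree_sub_le _ _).trans ?_
    exact max_le_max le_rfl (natDegree_C_mul_le _ _)
  calc volume {a : ℂ | ∃ z, ‖z - a‖ < r ∧ P.eval z = w * Q.eval z}
      ≤ ∑ z ∈ (P - C w * Q).roots.toFinset, volume (ball z r) :=
        (measure_mono hsub).trans (measure_biUnion_finset_le _ _)
    _ = (P - C w * Q).roots.toFinset.card * ENNReal.ofReal (Real.pi * r ^ 2) := by
        rw [Finset.sum_congr rfl fun z _ => vol_ball z hr, Finset.sum_const, nsmul_eq_mul]
    _ ≤ (max P.natDegree Q.natDegree : ℕ) * ENNReal.ofReal (Real.pi * r ^ 2) := by gcongr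
    _ = ENNReal.ofReal ((max P.natDegree Q.natDegree : ℕ) * (Real.pi * r ^ 2)) := by
        rw [ENNReal.ofReal_mul (Nat.cast_nonneg _), ENNReal.ofReal_natCast]

theorem vol_Om {P Q : ℂ[X]} (hc : IsCoprime P Q) (hd : 1 ≤ max P.natDegree Q.natDegree)
    {r : ℝ} (hr : 0 ≤ r) : volume (Om P Q r) ≤
      ENNReal.ofReal (Real.pi * ((max P.natDegree Q.natDegree : ℕ) * (Real.pi * r ^ 2))) := by
  rw [Measure.volume_eq_prod, Measure.prod_apply_symm (meas_Om P Q r)]
  calc ∫⁻ w, volume ((fun a => (a, w)) ⁻¹' Om P Q r)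
      ≤ ∫⁻ w, (ball (0 : ℂ) 1).indicator (fun _ =>
          ENNReal.ofReal ((max P.natDegree Q.natDegree : ℕ) * (Real.pi * r ^ 2))) w := by
        apply lintegral_mono
        intro w
        by_cases hw : ‖w‖ < 1
        · simp only
          rw [indicator_of_mem (by rw [mem_ball, dist_zero_right]; exact hw)]
          refine (measure_mono ?_).trans (vol_fibre hc hd w hr)
          rintro a ⟨-, -, h⟩
          exact h
        · simp only
          have : (fun a => (a, w)) ⁻¹' Om P Q r = ∅ := by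
            ext a
            simp only [mem_preimage, mem_empty_iff_false, iff_false]
            rintro ⟨-, h, -⟩
            exact hw h
          rw [this, measure_empty]
          exact zero_le
    _ = ENNReal.ofReal (Real.pi * ((max P.natDegree Q.natDegree : ℕ) * (Real.pi * r ^ 2))) := by
        rw [lintegral_indicator measurableSet_ball, setLIntegral_const, vol_ball 0 zero_le_one,
          ← ENNReal.ofReal_mul (by positivity)]
        congr 1; ring

/-- the centres `a` whose disc of radius `r` takes more than half of the values of the unit disc -/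
def Large (P Q : ℂ[X]) (r : ℝ) : Set ℂ :=
  {a | ENNReal.ofReal (Real.pi / 2) < volume (Prod.mk a ⁻¹' Om P Q r)}

theorem meas_Large (P Q : ℂ[X]) (r : ℝ) : MeasurableSet (Large P Q r) :=
  measurableSet_lt measurable_const (measurable_measure_prodMk_left (meas_Om P Q r))

theorem Large_sub (P Q : ℂ[X]) (r : ℝ) : Large P Q r ⊆ ball 0 1 := by
  intro a ha
  by_contra h
  have : Prod.mk a ⁻¹' Om P Q r = ∅ := by
    ext w
    simp only [mem_preimage, mem_empty_iff_false, iff_false]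
    rintro ⟨h1, -⟩
    exact h (by rw [mem_ball, dist_zero_right]; exact h1)
  have ha' : ENNReal.ofReal (Real.pi / 2) < volume (Prod.mk a ⁻¹' Om P Q r) := ha
  rw [this, measure_empty] at ha'
  exact not_lt_zero ha'

theorem Large_mono (P Q : ℂ[X]) {r r' : ℝ} (h : r ≤ r') : Large P Q r ⊆ Large P Q r' := by
  intro a ha
  refine lt_of_lt_of_le ha (measure_mono ?_)
  rintro w ⟨h1, h2, z, h3, h4⟩
  exact ⟨h1, h2, z, h3.trans_le h, h4⟩

theorem vol_Large {P Q : ℂ[X]} (hc : IsCoprime P Q) (hd : 1 ≤ max P.natDegree Q.natDegree)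
    {r : ℝ} (hr : 0 ≤ r) : volume (Large P Q r) ≤
      ENNReal.ofReal (2 * Real.pi * (max P.natDegree Q.natDegree : ℕ) * r ^ 2) := by
  have hpi := Real.pi_pos
  have h1 := mul_meas_ge_le_lintegral (μ := (volume : Measure ℂ))
    (measurable_measure_prodMk_left (ν := (volume : Measure ℂ)) (meas_Om P Q r))
    (ENNReal.ofReal (Real.pi / 2))
  rw [← Measure.prod_apply (meas_Om P Q r), ← Measure.volume_eq_prod] at h1
  have h2 := h1.trans (vol_Om hc hd hr)
  have h3 : ENNReal.ofReal (Real.pi / 2) * volume (Large P Q r) ≤ ENNReal.ofReal (Real.pi / 2) *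
      ENNReal.ofReal (2 * Real.pi * (max P.natDegree Q.natDegree : ℕ) * r ^ 2) := by
    rw [← ENNReal.ofReal_mul (by positivity)]
    refine le_trans ?_ (h2.trans (le_of_eq ?_))
    · gcongr
      intro a (ha : ENNReal.ofReal (Real.pi / 2) < volume (Prod.mk a ⁻¹' Om P Q r))
      exact ha.le
    · congr 1; ring
  exact (ENNReal.mul_le_mul_iff_right (ENNReal.ofReal_pos.2 (by positivity)).ne'
    ENNReal.ofReal_ne_top).1 h3

end Pool.Agent.Helper31.MO
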