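import Mathlib
import Pool.Graph.R_seed8.Split938.J4

/-! Planar estimates: the kernel `1 / |y - w|` and the area mean value inequality. -/

set_option autoImplicit false

open MeasureTheory Metric Set Filter Topology

namespace Pool.Agent.Helper31.MO

/-- `∫ 1 / |u|` over the unit disc. -/
theorem ker_ball : ∫⁻ u in ball (0 : ℂ) 1, ENNReal.ofReal ‖u‖⁻¹ ≤ ENNReal.ofReal (2 * Real.pi) := by
  rw [← lintegral_indicator measurableSet_ball, ← Complex.lintegral_comp_polarCoord_symm]
  calc ∫⁻ p in polarCoord.target, ENNReal.ofReal p.1 •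
        (ball (0 : ℂ) 1).indicator (fun u => ENNReal.ofReal ‖u‖⁻¹) (Complex.polarCoord.symm p)
      ≤ ∫⁻ p in polarCoord.target,
          (Ioo (0 : ℝ) 1 ×ˢ Ioo (-Real.pi) Real.pi).indicator (fun _ => 1) p := by
        apply setLIntegral_mono' polarCoord.open_target.measurableSet
        rintro ⟨ρ, θ⟩ ⟨hρ, hθ⟩
        have hρ' : 0 < ρ := hρ
        have hn : ‖Complex.polarCoord.symm (ρ, θ)‖ = ρ := by
          rw [Complex.norm_polarCoord_symm]; exact abs_of_pos hρ'
        by_cases h1 : ρ < 1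
        · rw [indicator_of_mem (by rw [mem_ball, dist_zero_right, hn]; exact h1),
            indicator_of_mem (by exact ⟨⟨hρ', h1⟩, hθ⟩), hn, smul_eq_mul,
            ← ENNReal.ofReal_mul hρ'.le, mul_inv_cancel₀ hρ'.ne', ENNReal.ofReal_one]
        · rw [indicator_of_notMem (by rw [mem_ball, dist_zero_right, hn]; exact h1)]
          simp
    _ ≤ ∫⁻ p : ℝ × ℝ, (Ioo (0 : ℝ) 1 ×ˢ Ioo (-Real.pi) Real.pi).indicator (fun _ => 1) p :=
        setLIntegral_le_lintegral _ _
    _ = ENNReal.ofReal (2 * Real.pi) := by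
        rw [lintegral_indicator (measurableSet_Ioo.prod measurableSet_Ioo), setLIntegral_one,
          Measure.volume_eq_prod, Measure.prod_prod, Real.volume_Ioo, Real.volume_Ioo]
        simp only [sub_zero, ENNReal.ofReal_one, one_mul]
        congr 1; ring

theorem vol_ball (c : ℂ) {r : ℝ} (hr : 0 ≤ r) :
    volume (ball c r) = ENNReal.ofReal (Real.pi * r ^ 2) := by
  rw [Complex.volume_ball, mul_comm, ENNReal.ofReal_mul Real.pi_pos.le, ENNReal.ofReal_pow hr]
  congr 1
  rw [ENNReal.ofReal, ← NNReal.coe_real_pi, Real.toNNReal_coe]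

/-- The kernel on the unit disc with an arbitrary pole. -/
theorem ker (y : ℂ) : ∫⁻ w in ball (0 : ℂ) 1, ENNReal.ofReal ‖y - w‖⁻¹ ≤
    ENNReal.ofReal (3 * Real.pi) := by
  have h1 : ∀ w : ℂ, ENNReal.ofReal ‖y - w‖⁻¹ ≤
      (ball (0 : ℂ) 1).indicator (fun u => ENNReal.ofReal ‖u‖⁻¹) (y - w) + 1 := by
    intro w
    by_cases h : ‖y - w‖ < 1
    · rw [indicator_of_mem (by rw [mem_ball, dist_zero_right]; exact h)]
      exact le_self_add
    · refine le_trans ?_ le_add_self
      rw [← ENNReal.ofReal_one]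
      apply ENNReal.ofReal_le_ofReal
      exact inv_le_one_of_one_le₀ (not_lt.1 h)
  calc ∫⁻ w in ball (0 : ℂ) 1, ENNReal.ofReal ‖y - w‖⁻¹
      ≤ ∫⁻ w in ball (0 : ℂ) 1,
          ((ball (0 : ℂ) 1).indicator (fun u => ENNReal.ofReal ‖u‖⁻¹) (y - w) + 1) :=
        lintegral_mono h1
    _ = (∫⁻ w in ball (0 : ℂ) 1,
          (ball (0 : ℂ) 1).indicator (fun u => ENNReal.ofReal ‖u‖⁻¹) (y - w)) +
          volume (ball (0 : ℂ) 1) := by
        rw [lintegral_add_right _ measurable_const, setLIntegral_one]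
    _ ≤ (∫⁻ w, (ball (0 : ℂ) 1).indicator (fun u => ENNReal.ofReal ‖u‖⁻¹) (y - w)) +
          volume (ball (0 : ℂ) 1) := by
        gcongr
        exact Measure.restrict_le_self
    _ = (∫⁻ u in ball (0 : ℂ) 1, ENNReal.ofReal ‖u‖⁻¹) + volume (ball (0 : ℂ) 1) := by
        rw [lintegral_sub_left_eq_self (fun w =>
          (ball (0 : ℂ) 1).indicator (fun u => ENNReal.ofReal ‖u‖⁻¹) w) y,
          lintegral_indicator measurableSet_ball]
    _ ≤ ENNReal.ofReal (2 * Real.pi) + ENNReal.ofReal (Real.pi * 1 ^ 2) :=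
        add_le_add ker_ball (vol_ball 0 zero_le_one).le
    _ = ENNReal.ofReal (3 * Real.pi) := by
        rw [← ENNReal.ofReal_add (by positivity) (by positivity)]
        congr 1; ring

/-- A holomorphic function with integral of the modulus at most `6 π r ^ 2` over `ball a r` has small
oscillation on small concentric discs. -/
theorem osc {a : ℂ} {r κ : ℝ} (hr : 0 < r) (hκ : κ ≤ 1) {h : ℂ → ℂ}
    (hd : DifferentiableOn ℂ h (ball a r))
    (hi : ∫⁻ z in ball a r, ENNReal.ofReal ‖h z‖ ≤ ENNReal.ofReal (6 * Real.pi * r ^ 2)) {z z' : ℂ}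
    (hz : z ∈ ball a (κ * r / 4)) (hz' : z' ∈ ball a (κ * r / 4)) : ‖h z - h z'‖ ≤ 48 * κ := by
  have hpi := Real.pi_pos
  have h24 : ∀ x ∈ ball a (r / 2), ‖h x‖ ≤ 24 := by
    intro x hx
    have hsub : ball x (r / 2) ⊆ ball a r := by
      intro y hy
      have h1 : dist y x < r / 2 := hy
      have h2 : dist x a < r / 2 := hx
      have h3 := dist_triangle y x a
      show dist y a < r
      linarith
    have h1 := Pool.Agent.Split938.J4.mean_disc' h x (r / 2) (by linarith) (hd.mono hsub)
    have h2 := (h1.trans (lintegral_mono_set hsub)).trans hi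
    have h3 := (ENNReal.ofReal_le_ofReal_iff (by positivity)).1 h2
    have h4 : Real.pi * r ^ 2 * ‖h x‖ ≤ Real.pi * r ^ 2 * 24 := by nlinarith
    exact le_of_mul_le_mul_left h4 (by positivity)
  have hder : ∀ x ∈ ball a (r / 4), ‖deriv h x‖ ≤ 96 / r := by
    intro x hx
    have hx' : dist x a < r / 4 := hx
    have hsub : closedBall x (r / 4) ⊆ ball a (r / 2) := by
      intro y hy
      have h1 : dist y x ≤ r / 4 := hy
      have h3 := dist_triangle y x a
      show dist y a < r / 2
      linarith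
    have hsub2 : closedBall x (r / 4) ⊆ ball a r := hsub.trans (ball_subset_ball (by linarith))
    have h1 : DiffContOnCl ℂ h (ball x (r / 4)) := by
      apply DifferentiableOn.diffContOnCl
      rw [closure_ball _ (by positivity)]
      exact hd.mono hsub2
    have h2 := Complex.norm_deriv_le_of_forall_mem_sphere_norm_le (by positivity : 0 < r / 4) h1
      (C := 24) (fun y hy => h24 y (hsub (sphere_subset_closedBall hy)))
    calc ‖deriv h x‖ ≤ 24 / (r / 4) := h2
      _ = 96 / r := by field_simp; norm_num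
  have hsub : ball a (κ * r / 4) ⊆ ball a (r / 4) := by
    apply ball_subset_ball
    nlinarith
  have hat : ∀ x ∈ ball a (κ * r / 4), DifferentiableAt ℂ h x := by
    intro x hx
    have h1 : x ∈ ball a r := ball_subset_ball (by linarith) (hsub hx)
    exact hd.differentiableAt (isOpen_ball.mem_nhds h1)
  have hL := (convex_ball a (κ * r / 4)).norm_image_sub_le_of_norm_deriv_le (C := 96 / r)
    hat (fun x hx => hder x (hsub hx)) hz' hz
  have hdist : ‖z - z'‖ ≤ κ * r / 2 := by
    have h1 : dist z a < κ * r / 4 := hz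
    have h2 : dist z' a < κ * r / 4 := hz'
    have h3 := dist_triangle z a z'
    rw [dist_comm a z'] at h3
    rw [← dist_eq_norm]
    linarith
  calc ‖h z - h z'‖ ≤ 96 / r * ‖z - z'‖ := hL
    _ ≤ 96 / r * (κ * r / 2) := by gcongr
    _ = 48 * κ := by field_simp; ring

end Pool.Agent.Helper31.MO
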