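import Pool.Agent.Helper31.MO.Fibre

/-! A rational map which omits half of the values of the unit disc on `ball a r` oscillates little on
small concentric discs. -/

set_option autoImplicit false

open MeasureTheory Metric Set Filter Topology Polynomial

namespace Pool.Agent.Helper31.MO

theorem exists_value {P Q : ℂ[X]} {a : ℂ} (ha : ‖a‖ < 1) {r : ℝ}
    (hr : 0 < r) (hL : a ∉ Large P Q r) : ∃ w : ℂ, ‖w‖ < 1 ∧
      (∀ z ∈ ball a r, P.eval z - w * Q.eval z ≠ 0) ∧
      ∫⁻ z in ball a r, ENNReal.ofReal ‖Q.eval z / (P.eval z - w * Q.eval z)‖ ≤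
        ENNReal.ofReal (6 * Real.pi * r ^ 2) := by
  have hpi := Real.pi_pos
  set F : Set ℂ := Prod.mk a ⁻¹' Om P Q r with hF
  have hFm : MeasurableSet F := measurable_prodMk_left (meas_Om P Q r)
  have hFs : F ⊆ ball 0 1 := by
    rintro w ⟨-, h, -⟩
    rw [mem_ball, dist_zero_right]; exact h
  have hFv : volume F ≤ ENNReal.ofReal (Real.pi / 2) := not_lt.1 hL
  set O : Set ℂ := ball 0 1 \ F with hO
  have hOm : MeasurableSet O := measurableSet_ball.diff hFm
  have hOv : ENNReal.ofReal (Real.pi / 2) ≤ volume O := by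
    rw [hO, measure_sdiff hFs hFm.nullMeasurableSet (hFv.trans_lt ENNReal.ofReal_lt_top).ne,
      vol_ball 0 zero_le_one]
    refine le_trans (le_of_eq ?_) (tsub_le_tsub_left hFv _)
    rw [← ENNReal.ofReal_sub _ (by positivity)]
    congr 1; ring
  have hO0 : volume O ≠ 0 := ((ENNReal.ofReal_pos.2 (by positivity)).trans_le hOv).ne'
  have hOt : volume O ≠ ⊤ := by
    refine ((measure_mono sdiff_subset).trans_lt ?_).ne
    rw [vol_ball 0 zero_le_one]
    exact ENNReal.ofReal_lt_top
  set G : ℂ → ℂ → ENNReal := fun w z => ENNReal.ofReal ‖Q.eval z / (P.eval z - w * Q.eval z)‖ with hG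
  have hGm : Measurable (Function.uncurry G) := by
    have h1 : Measurable fun p : ℂ × ℂ => Q.eval p.2 := (Q.continuous.comp continuous_snd).measurable
    have h2 : Measurable fun p : ℂ × ℂ => P.eval p.2 := (P.continuous.comp continuous_snd).measurable
    exact (h1.div (h2.sub (measurable_fst.mul h1))).norm.ennreal_ofReal
  have hGle : ∀ z : ℂ, ∫⁻ w in O, G w z ≤ ENNReal.ofReal (3 * Real.pi) := by
    intro z
    by_cases hQ : Q.eval z = 0
    · simp [hG, hQ]
    refine le_trans ?_ (ker (P.eval z / Q.eval z))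
    refine (lintegral_mono_set sdiff_subset).trans (lintegral_mono fun w => ?_)
    apply ENNReal.ofReal_le_ofReal
    apply le_of_eq
    rw [← norm_inv]
    congr 1
    have : P.eval z / Q.eval z - w = (P.eval z - w * Q.eval z) / Q.eval z := by
      field_simp
    rw [this, inv_div]
  obtain ⟨w, hw, hle⟩ := exists_le_setLAverage (f := fun w => ∫⁻ z in ball a r, G w z) hO0 hOt
    (Measurable.lintegral_prod_right' hGm).aemeasurable
  have hwF : w ∉ F := hw.2
  have hw1 : ‖w‖ < 1 := by simpa using hw.1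
  refine ⟨w, hw1, ?_, hle.trans ?_⟩
  · intro z hz h0
    apply hwF
    refine ⟨ha, hw1, z, ?_, sub_eq_zero.1 h0⟩
    rwa [mem_ball, dist_eq_norm] at hz
  · rw [setLAverage_eq]
    have h1 : ∫⁻ w in O, ∫⁻ z in ball a r, G w z ≤
        ENNReal.ofReal (3 * Real.pi) * ENNReal.ofReal (Real.pi * r ^ 2) := by
      rw [lintegral_lintegral_swap hGm.aemeasurable]
      calc ∫⁻ z in ball a r, ∫⁻ w in O, G w z
          ≤ ∫⁻ _ in ball a r, ENNReal.ofReal (3 * Real.pi) := lintegral_mono hGle
        _ = _ := by rw [setLIntegral_const, vol_ball a hr.le]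
    have h2 : ENNReal.ofReal (3 * Real.pi) * ENNReal.ofReal (Real.pi * r ^ 2) =
        ENNReal.ofReal (6 * Real.pi * r ^ 2) * ENNReal.ofReal (Real.pi / 2) := by
      rw [← ENNReal.ofReal_mul (by positivity), ← ENNReal.ofReal_mul (by positivity)]
      congr 1; ring
    rw [ENNReal.div_le_iff hO0 hOt]
    refine h1.trans ?_
    rw [h2]
    gcongr

theorem key_id {p q p' q' w D D' : ℂ} (hq : q ≠ 0) (hq' : q' ≠ 0) (hD : D ≠ 0) (hD' : D' ≠ 0)
    (h1 : p = D + w * q) (h2 : p' = D' + w * q') :
    p / q - p' / q' = -(q / D - q' / D') * ((D / q) * (D' / q')) := by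
  subst h1 h2
  field_simp
  ring

/-- The oscillation estimate for the finite values of modulus less than `2`. -/
theorem osc_map {P Q : ℂ[X]} {a : ℂ} (ha : ‖a‖ < 1) {r κ : ℝ} (hr : 0 < r) (hκ : κ ≤ 1)
    (hL : a ∉ Large P Q r) {z z' : ℂ} (hz : z ∈ ball a (κ * r / 4)) (hz' : z' ∈ ball a (κ * r / 4))
    (hQ : Q.eval z ≠ 0) (hQ' : Q.eval z' ≠ 0) (h2 : ‖P.eval z / Q.eval z‖ < 2)
    (h2' : ‖P.eval z' / Q.eval z'‖ < 2) :
    ‖P.eval z / Q.eval z - P.eval z' / Q.eval z'‖ ≤ 432 * κ := by
  obtain ⟨w, hw, hne, hint⟩ := exists_value ha hr hL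
  have hd : DifferentiableOn ℂ (fun z => Q.eval z / (P.eval z - w * Q.eval z)) (ball a r) := by
    refine (Q.differentiable.differentiableOn).div ?_ hne
    exact (P.differentiable.sub ((differentiable_const w).mul Q.differentiable)).differentiableOn
  have ho := osc hr hκ hd hint hz hz'
  have hsub : ball a (κ * r / 4) ⊆ ball a r := ball_subset_ball (by nlinarith)
  have hn := hne z (hsub hz)
  have hn' := hne z' (hsub hz')
  have e1 : P.eval z / Q.eval z - w = (P.eval z - w * Q.eval z) / Q.eval z := by field_simp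
  have e2 : P.eval z' / Q.eval z' - w = (P.eval z' - w * Q.eval z') / Q.eval z' := by field_simp
  have hkey : P.eval z / Q.eval z - P.eval z' / Q.eval z' =
      -(Q.eval z / (P.eval z - w * Q.eval z) - Q.eval z' / (P.eval z' - w * Q.eval z')) *
        ((P.eval z / Q.eval z - w) * (P.eval z' / Q.eval z' - w)) := by
    rw [e1, e2]
    exact key_id hQ hQ' hn hn' (w := w) (by ring) (by ring)
  have b1 : ‖P.eval z / Q.eval z - w‖ ≤ 3 := by
    have := norm_sub_le (P.eval z / Q.eval z) w
    linarith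
  have b2 : ‖P.eval z' / Q.eval z' - w‖ ≤ 3 := by
    have := norm_sub_le (P.eval z' / Q.eval z') w
    linarith
  rw [hkey, norm_mul, norm_neg, norm_mul]
  calc _ ≤ 48 * κ * (3 * 3) := by
        apply mul_le_mul ho (mul_le_mul b1 b2 (norm_nonneg _) (by norm_num)) (by positivity)
        exact (norm_nonneg _).trans ho
    _ = 432 * κ := by ring

end Pool.Agent.Helper31.MO
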