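import Pool.Agent.Helper31.MO.Bad

/-! Dyadic summation: the pairs which are bad for a sequence of scales. -/

set_option autoImplicit false

open MeasureTheory Metric Set Filter Topology Polynomial

namespace Pool.Agent.Helper31.MO

variable {ι : Type} [Fintype ι]

/-- the centres which survive at scale `j` -/
def T (P Q : ι → ℂ[X]) (r : ℕ → ℝ) : ℕ → Set ℂ
  | 0 => ball 0 1
  | j + 1 => ⋃ i, Large (P i) (Q i) (r j)

theorem meas_T (P Q : ι → ℂ[X]) (r : ℕ → ℝ) (j : ℕ) : MeasurableSet (T P Q r j) := by
  cases j with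
  | zero => exact measurableSet_ball
  | succ j => exact MeasurableSet.iUnion fun i => meas_Large _ _ _

theorem vol_T_succ {P Q : ι → ℂ[X]} (hc : ∀ i, IsCoprime (P i) (Q i))
    (hd : ∀ i, 1 ≤ max (P i).natDegree (Q i).natDegree) {r : ℕ → ℝ} (hr : ∀ j, 0 < r j) (j : ℕ) :
    volume (T P Q r (j + 1)) ≤ ENNReal.ofReal (2 * Real.pi *
      (∑ i, max (P i).natDegree (Q i).natDegree : ℕ) * r j ^ 2) := by
  have hpi := Real.pi_pos
  calc volume (T P Q r (j + 1)) ≤ ∑ i, volume (Large (P i) (Q i) (r j)) :=
        measure_iUnion_fintype_le _ _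
    _ ≤ ∑ i, ENNReal.ofReal (2 * Real.pi * (max (P i).natDegree (Q i).natDegree : ℕ) * r j ^ 2) :=
        Finset.sum_le_sum fun i _ => vol_Large (hc i) (hd i) (hr j).le
    _ = _ := by
        rw [← ENNReal.ofReal_sum_of_nonneg (fun i _ => by positivity)]
        congr 1
        rw [← Finset.sum_mul, ← Finset.mul_sum, Nat.cast_sum]

theorem sum_bound [Nonempty ι] {P Q : ι → ℂ[X]} (hc : ∀ i, IsCoprime (P i) (Q i))
    (hd : ∀ i, 1 ≤ max (P i).natDegree (Q i).natDegree) (V : Finset ℂ) {t : ℝ} (ht : 0 < t) :
    ∃ η : ℕ → ℝ, (∀ j, 0 < η j) ∧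
      volume (⋂ j, Bad P Q V (η j) (4 * t / η j)) ≤ ENNReal.ofReal (110592 * Real.pi ^ 2 *
        Real.sqrt (Fintype.card ι * (∑ i, max (P i).natDegree (Q i).natDegree : ℕ) *
          (V.card + 2 * Fintype.card ι)) * t) := by
  have hpi := Real.pi_pos
  set N : ℕ := ∑ i, max (P i).natDegree (Q i).natDegree with hN
  set k : ℕ := Fintype.card ι with hk
  set m : ℕ := V.card with hm
  have hk1 : 1 ≤ k := Fintype.card_pos
  have hN1 : 1 ≤ N := by
    obtain ⟨i⟩ := ‹Nonempty ι›
    exact (hd i).trans (Finset.single_le_sum (f := fun i => max (P i).natDegree (Q i).natDegree)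
      (fun _ _ => Nat.zero_le _) (Finset.mem_univ i))
  have hk1' : (1 : ℝ) ≤ k := by exact_mod_cast hk1
  have hN1' : (1 : ℝ) ≤ N := by exact_mod_cast hN1
  have hm0 : (0 : ℝ) ≤ m := Nat.cast_nonneg m
  set r₀ : ℝ := (Real.sqrt (8 * N))⁻¹ with hr₀
  have hr₀0 : 0 < r₀ := inv_pos.2 (Real.sqrt_pos.2 (by positivity))
  clear_value r₀
  set r : ℕ → ℝ := fun j => r₀ / 2 ^ j with hr
  have hr0 : ∀ j, 0 < r j := fun j => by positivity
  set s : ℝ := Real.sqrt (2 * k * (m + 2 * k)) with hs
  have hs0 : 0 < s := Real.sqrt_pos.2 (by positivity)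
  choose κ hκ0 hκ1 hκb using fun j : ℕ => exists_kappa (m := m) hk1 ht (hr0 j)
  refine ⟨fun j => κ j * r j / 4, fun j => by have := hκ0 j; have := hr0 j; positivity, ?_⟩
  have hη : ∀ j, 4 * t / (κ j * r j / 4) = 16 * t / (κ j * r j) := by
    intro j
    have h1 := hκ0 j
    have h2 := hr0 j
    field_simp
    norm_num
  simp only [hη]
  set B : ℕ → Set (ℂ × ℂ) := fun j => Bad P Q V (κ j * r j / 4) (16 * t / (κ j * r j)) with hB
  have hBm : ∀ j, MeasurableSet (B j) := fun j => meas_Bad _ _ _ _ _
  -- fibres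
  have hfib : ∀ j, ∀ a : ℂ, a ∈ T P Q r j \ T P Q r (j + 1) → ‖a‖ < 1 →
      volume (Prod.mk a ⁻¹' B j) ≤ ENNReal.ofReal (Real.pi * (13824 * s * t / r j)) := by
    intro j a ha ha1
    have hL : ∀ i, a ∉ Large (P i) (Q i) (r j) := fun i hi => ha.2 (mem_iUnion.2 ⟨i, hi⟩)
    have hρ : 0 < 16 * t / (κ j * r j) := by
      have := hκ0 j; have := hr0 j; positivity
    have h1 := vol_fib (V := V) ha1 (hr0 j) (hκ0 j) (hκ1 j) hρ hL
    have h2 : volume (Prod.mk a ⁻¹' B j) ≤ ENNReal.ofReal (Real.pi * 1) := by
      rw [mul_one]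
      have : volume (ball (0 : ℂ) 1) = ENNReal.ofReal Real.pi := by
        rw [vol_ball 0 zero_le_one]; congr 1; ring
      rw [← this]
      apply measure_mono
      rintro b ⟨-, hb, -⟩
      rwa [mem_ball, dist_zero_right]
    have h3 := le_min h2 h1
    refine h3.trans ?_
    rw [← ENNReal.ofReal_min, ← mul_min_of_nonneg _ _ hpi.le]
    apply ENNReal.ofReal_le_ofReal
    exact mul_le_mul_of_nonneg_left (hκb j) hpi.le
  -- the pieces
  set S : ℕ → Set (ℂ × ℂ) := fun j => B j ∩ Prod.fst ⁻¹' (T P Q r j \ T P Q r (j + 1)) with hS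
  have hSv : ∀ j, volume (S j) ≤
      ENNReal.ofReal (Real.pi * (13824 * s * t / r j)) * volume (T P Q r j) := by
    intro j
    have hTm := (meas_T P Q r j).diff (meas_T P Q r (j + 1))
    have hSm : MeasurableSet (S j) := (hBm j).inter (measurable_fst hTm)
    rw [Measure.volume_eq_prod, Measure.prod_apply hSm]
    calc ∫⁻ a, volume (Prod.mk a ⁻¹' S j)
        ≤ ∫⁻ a, (T P Q r j).indicator
            (fun _ => ENNReal.ofReal (Real.pi * (13824 * s * t / r j))) a := by
          apply lintegral_mono
          intro a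
          by_cases ha : a ∈ T P Q r j \ T P Q r (j + 1)
          · simp only
            rw [indicator_of_mem ha.1]
            by_cases ha1 : ‖a‖ < 1
            · exact (measure_mono (fun b hb => hb.1)).trans (hfib j a ha ha1)
            · have : Prod.mk a ⁻¹' S j = ∅ := by
                ext b
                simp only [mem_preimage, mem_empty_iff_false, iff_false]
                rintro ⟨⟨h, -⟩, -⟩
                exact ha1 h
              rw [this, measure_empty]
              exact zero_le
          · have : Prod.mk a ⁻¹' S j = ∅ := by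
              ext b
              simp only [mem_preimage, mem_empty_iff_false, iff_false]
              rintro ⟨-, h⟩
              exact ha h
            simp only
            rw [this, measure_empty]
            exact zero_le
      _ = _ := by
          rw [lintegral_indicator (meas_T P Q r j), setLIntegral_const]
  -- the cover
  set Z : Set ℂ := ⋂ j, T P Q r j with hZ
  have hZ0 : volume Z = 0 := by
    have h1 : ∀ j, volume Z ≤ ENNReal.ofReal (2 * Real.pi * N * r₀ ^ 2 * (1 / 4) ^ j) := by
      intro j
      refine (measure_mono (iInter_subset _ (j + 1))).trans ((vol_T_succ hc hd hr0 j).trans ?_)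
      apply ENNReal.ofReal_le_ofReal
      apply le_of_eq
      have e : (r₀ / 2 ^ j) ^ 2 = r₀ ^ 2 * (1 / 4) ^ j := by
        rw [div_pow, ← pow_mul, mul_comm j 2, pow_mul, one_div, inv_pow, div_eq_mul_inv]
        norm_num
      show 2 * Real.pi * (N : ℝ) * (r₀ / 2 ^ j) ^ 2 = _
      rw [e]
      ring
    have h2 : Tendsto (fun j : ℕ => ENNReal.ofReal (2 * Real.pi * N * r₀ ^ 2 * (1 / 4) ^ j)) atTop
        (𝓝 0) := by
      rw [← ENNReal.ofReal_zero]
      apply ENNReal.tendsto_ofReal
      have h3 := tendsto_pow_atTop_nhds_zero_of_lt_one (r := (1 / 4 : ℝ)) (by norm_num) (by norm_num)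
      simpa using h3.const_mul (2 * Real.pi * N * r₀ ^ 2)
    exact le_antisymm (ge_of_tendsto' h2 h1) zero_le
  have hcov : (⋂ j, B j) ⊆ Z ×ˢ ball 0 1 ∪ ⋃ j, S j := by
    intro p hp
    have hp0 : p ∈ B 0 := mem_iInter.1 hp 0
    by_cases h : ∃ j, p.1 ∉ T P Q r (j + 1)
    · right
      classical
      refine mem_iUnion.2 ⟨Nat.find h, mem_iInter.1 hp _, ?_, Nat.find_spec h⟩
      cases hj : Nat.find h with
      | zero =>
        show p.1 ∈ ball (0 : ℂ) 1
        rw [mem_ball, dist_zero_right]
        exact hp0.1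
      | succ j =>
        have := Nat.find_min h (m := j) (by omega)
        exact not_not.1 this
    · left
      push Not at h
      refine ⟨mem_iInter.2 fun j => ?_, ?_⟩
      · cases j with
        | zero =>
          show p.1 ∈ ball (0 : ℂ) 1
          rw [mem_ball, dist_zero_right]
          exact hp0.1
        | succ j => exact h j
      · rw [mem_ball, dist_zero_right]
        exact hp0.2.1
  have hgeo : ∑' j : ℕ, ENNReal.ofReal ((1 / 2 : ℝ) ^ j) = ENNReal.ofReal 2 := by
    rw [← ENNReal.ofReal_tsum_of_nonneg (fun j => by positivity) summable_geometric_two,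
      tsum_geometric_two]
  calc volume (⋂ j, B j) ≤ volume (Z ×ˢ ball (0 : ℂ) 1) + ∑' j, volume (S j) :=
        (measure_mono hcov).trans ((measure_union_le _ _).trans
          (add_le_add le_rfl (measure_iUnion_le _)))
    _ = ∑' j, volume (S j) := by
        rw [Measure.volume_eq_prod, Measure.prod_prod, hZ0, zero_mul, zero_add]
    _ = volume (S 0) + ∑' j, volume (S (j + 1)) := tsum_eq_zero_add' ENNReal.summable
    _ ≤ ENNReal.ofReal (Real.pi * (13824 * s * t / r₀) * Real.pi) +
          ∑' j, ENNReal.ofReal (4 * Real.pi ^ 2 * N * (13824 * s) * t * r₀) *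
            ENNReal.ofReal ((1 / 2 : ℝ) ^ j) := by
        apply add_le_add
        · refine (hSv 0).trans (le_of_eq ?_)
          have h1 : volume (T P Q r 0) = ENNReal.ofReal Real.pi := by
            show volume (ball (0 : ℂ) 1) = _
            rw [vol_ball 0 zero_le_one]; congr 1; ring
          rw [h1, ← ENNReal.ofReal_mul (by have := hr0 0; positivity)]
          simp [hr]
        · apply ENNReal.tsum_le_tsum
          intro j
          have h1 := hr0 (j + 1)
          have h2 := hr0 j
          calc volume (S (j + 1)) ≤ ENNReal.ofReal (Real.pi * (13824 * s * t / r (j + 1))) *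
                ENNReal.ofReal (2 * Real.pi * N * r j ^ 2) := by
                refine (hSv (j + 1)).trans ?_
                gcongr
                exact vol_T_succ hc hd hr0 j
            _ = _ := by
                rw [← ENNReal.ofReal_mul (by positivity), ← ENNReal.ofReal_mul (by positivity)]
                congr 1
                show Real.pi * (13824 * s * t / (r₀ / 2 ^ (j + 1))) *
                  (2 * Real.pi * (N : ℝ) * (r₀ / 2 ^ j) ^ 2) =
                  4 * Real.pi ^ 2 * N * (13824 * s) * t * r₀ * (1 / 2) ^ j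
                have h5 : (0 : ℝ) < 2 ^ j := by positivity
                have h6 : (1 / 2 : ℝ) ^ j = 1 / 2 ^ j := by rw [div_pow, one_pow]
                rw [h6, pow_succ]
                field_simp
                ring
    _ = ENNReal.ofReal (Real.pi * (13824 * s * t / r₀) * Real.pi +
          4 * Real.pi ^ 2 * N * (13824 * s) * t * r₀ * 2) := by
        rw [ENNReal.tsum_mul_left, hgeo, ← ENNReal.ofReal_mul (by positivity),
          ← ENNReal.ofReal_add (by positivity) (by positivity)]
    _ = ENNReal.ofReal (110592 * Real.pi ^ 2 *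
        Real.sqrt (k * N * (m + 2 * k)) * t) := by
        congr 1
        have h8 : Real.sqrt (8 * N) ^ 2 = 8 * N := Real.sq_sqrt (by positivity)
        have h80 : 0 < Real.sqrt (8 * N) := Real.sqrt_pos.2 (by positivity)
        have e1 : s * Real.sqrt (8 * N) = 4 * Real.sqrt (k * N * (m + 2 * k)) := by
          rw [hs, ← Real.sqrt_mul (by positivity),
            show (2 * k * (m + 2 * k) * (8 * N) : ℝ) = 4 ^ 2 * (k * N * (m + 2 * k)) by ring,
            Real.sqrt_mul (by positivity), Real.sqrt_sq (by norm_num)]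
        have e2 : N * r₀ = Real.sqrt (8 * N) / 8 := by
          rw [hr₀, ← div_eq_mul_inv, div_eq_div_iff h80.ne' (by norm_num)]
          nlinarith
        have e3 : t / r₀ = t * Real.sqrt (8 * N) := by
          rw [hr₀, div_inv_eq_mul]
        calc Real.pi * (13824 * s * t / r₀) * Real.pi + 4 * Real.pi ^ 2 * N * (13824 * s) * t * r₀ * 2
            = Real.pi ^ 2 * 13824 * s * (t / r₀) +
              8 * 13824 * Real.pi ^ 2 * s * t * (N * r₀) := by ring
          _ = Real.pi ^ 2 * 27648 * t * (s * Real.sqrt (8 * N)) := by rw [e2, e3]; ring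
          _ = _ := by rw [e1]; ring

end Pool.Agent.Helper31.MO
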