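import Pool.Agent.Helper31.MO.Sum
import Pool.Agent.Helper31.MO.Crit

/-! Möbius maps on the sphere. -/

set_option autoImplicit false

open MeasureTheory Metric Set Filter Topology Polynomial
open scoped OnePoint

namespace Pool.Agent.Helper31.MO

open Pool.Agent.Helper114.Herman Pool.Agent.Helper114.Konig
open Pool.Agent.H792R2.CE (sph sph_coe sph_infty sph_coe_of_ne B1_continuous C4_inj rf wr)

theorem mob_cont (a b τ : ℂ) (hτ : τ ≠ 0) : Continuous (fun x : OnePoint ℂ =>
    x.elim (a : OnePoint ℂ) fun z => if z = b then ∞ else ((a + τ / (z - b) : ℂ) : OnePoint ℂ)) := by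
  have hcop : IsCoprime (C a * (X - C b) + C τ) (X - C b : ℂ[X]) := by
    refine ⟨C τ⁻¹, -(C τ⁻¹ * C a), ?_⟩
    have : (C τ⁻¹ * C τ : ℂ[X]) = 1 := by rw [← C_mul, inv_mul_cancel₀ hτ, C_1]
    calc C τ⁻¹ * (C a * (X - C b) + C τ) + -(C τ⁻¹ * C a) * (X - C b) = C τ⁻¹ * C τ := by ring
      _ = 1 := this
  have hd2 : (X - C b : ℂ[X]).natDegree = 1 := natDegree_X_sub_C b
  have hd1 : (C a * (X - C b) + C τ : ℂ[X]).natDegree ≤ 1 := by
    refine (natDegree_add_le _ _).trans (max_le ?_ (by simp))
    exact (natDegree_C_mul_le _ _).trans hd2.le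
  have h := B1_continuous hcop hd1 hd2
  convert h using 1
  funext x
  induction x using OnePoint.rec with
  | infty =>
    rw [sph_infty]
    have e1 : (C a * (X - C b) + C τ : ℂ[X]).coeff 1 = a := by
      simp [coeff_sub, coeff_X, coeff_C]
    have e2 : (X - C b : ℂ[X]).coeff 1 = 1 := by simp [coeff_sub, coeff_C]
    rw [e1, e2, pr_one]
    rfl
  | coe z =>
    rw [sph_coe]
    simp only [OnePoint.elim_some, eval_add, eval_mul, eval_sub, eval_C, eval_X]
    by_cases hz : z = b
    · rw [if_pos hz, hz, sub_self, pr_zero]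
    · have hz' : z - b ≠ 0 := sub_ne_zero.2 hz
      rw [if_neg hz, pr_ne hz']
      congr 1
      field_simp

theorem mob_inj (a b τ : ℂ) (hτ : τ ≠ 0) : Function.Injective (fun x : OnePoint ℂ =>
    x.elim (a : OnePoint ℂ) fun z => if z = b then ∞ else ((a + τ / (z - b) : ℂ) : OnePoint ℂ)) := by
  intro x y hxy
  induction x using OnePoint.rec with
  | infty =>
    induction y using OnePoint.rec with
    | infty => rfl
    | coe y =>
      exfalso
      simp only [OnePoint.elim_infty, OnePoint.elim_some] at hxy
      split_ifs at hxy with h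
      · exact OnePoint.coe_ne_infty _ hxy
      · rw [OnePoint.coe_eq_coe] at hxy
        have : τ / (y - b) = 0 := by linear_combination -hxy
        exact div_ne_zero hτ (sub_ne_zero.2 h) this
  | coe x =>
    induction y using OnePoint.rec with
    | infty =>
      exfalso
      simp only [OnePoint.elim_infty, OnePoint.elim_some] at hxy
      split_ifs at hxy with h
      · exact OnePoint.infty_ne_coe _ hxy
      · rw [OnePoint.coe_eq_coe] at hxy
        have : τ / (x - b) = 0 := by linear_combination hxy
        exact div_ne_zero hτ (sub_ne_zero.2 h) this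
    | coe y =>
      simp only [OnePoint.elim_some] at hxy
      split_ifs at hxy with h h' h'
      · rw [h, h']
      · exact absurd hxy (OnePoint.infty_ne_coe _)
      · exact absurd hxy (OnePoint.coe_ne_infty _)
      · rw [OnePoint.coe_eq_coe, add_right_inj] at hxy
        have h1 : x - b ≠ 0 := sub_ne_zero.2 h
        have h2 : y - b ≠ 0 := sub_ne_zero.2 h'
        rw [div_eq_div_iff h1 h2] at hxy
        have h3 : y - b = x - b := mul_left_cancel₀ hτ hxy
        have h4 : y = x := by linear_combination h3
        rw [h4]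

end Pool.Agent.Helper31.MO
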